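import Pool.Agent.H862R3.Monster.Targets

/-!
# Random monster groups: the converse

If only finitely many of the graphs contain a cycle, then with positive probability the random
group maps onto the integers.
-/

set_option autoImplicit false

open MeasureTheory Filter

universe u

namespace Pool.Agent.Y839.Mon

open Pool.Agent.H862R3.Monster

section Tree

variable {F : Type} [Group F] {S : LabelSet F} {V : Type} {Ω : SimpleGraph V}

lemma word_cons (α : Labelling S Ω) {u v w : V} (h : Ω.Adj u v) (p : Ω.Walk v w) :
    word α (SimpleGraph.Walk.cons h p) = α.1 ⟨(u, v), h⟩ * word α p := by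
  simp [word]

lemma word_append (α : Labelling S Ω) {u v w : V} (p : Ω.Walk u v) (q : Ω.Walk v w) :
    word α (p.append q) = word α p * word α q := by
  simp [word]

/-- In an acyclic graph all walks read the same word as the path with the same ends. -/
lemma word_eq_of_acyclic (hΩ : Ω.IsAcyclic) (α : Labelling S Ω) {u v : V} (p : Ω.Walk u v) :
    ∀ q : Ω.Walk u v, q.IsPath → word α p = word α q := by
  classical
  induction p with
  | nil =>
    intro q hq
    have : q = SimpleGraph.Walk.nil := by
      simpa using hq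
    rw [this]
  | @cons u w v h p ih =>
    intro q hq
    rw [word_cons]
    rw [ih p.bypass p.bypass_isPath]
    by_cases hu : u ∈ p.bypass.support
    · -- the path from `w` starts with the edge `wu`
      have hsp := p.bypass.take_spec hu
      have ht : (p.bypass.takeUntil u hu).IsPath := p.bypass_isPath.takeUntil hu
      have hd : (p.bypass.dropUntil u hu).IsPath := p.bypass_isPath.dropUntil hu
      have he : (SimpleGraph.Walk.cons h.symm SimpleGraph.Walk.nil : Ω.Walk w u).IsPath := by
        simp [h.ne']
      have h1 : (⟨p.bypass.takeUntil u hu, ht⟩ : Ω.Path w u) =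
          ⟨SimpleGraph.Walk.cons h.symm SimpleGraph.Walk.nil, he⟩ := hΩ.path_unique _ _
      have h2 : p.bypass.takeUntil u hu = SimpleGraph.Walk.cons h.symm SimpleGraph.Walk.nil :=
        congrArg Subtype.val h1
      have h3 : (⟨p.bypass.dropUntil u hu, hd⟩ : Ω.Path u v) = ⟨q, hq⟩ := hΩ.path_unique _ _
      have h4 : p.bypass.dropUntil u hu = q := congrArg Subtype.val h3
      rw [← hsp, word_append, h2, h4, word_cons]
      have h5 : α.1 ⟨(w, u), h.symm⟩ = (α.1 ⟨(u, w), h⟩)⁻¹ := α.2.2 ⟨(u, w), h⟩
      rw [h5]
      simp [word]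
    · have hc : (SimpleGraph.Walk.cons h p.bypass).IsPath := p.bypass_isPath.cons hu
      have h3 : (⟨SimpleGraph.Walk.cons h p.bypass, hc⟩ : Ω.Path u v) = ⟨q, hq⟩ :=
        hΩ.path_unique _ _
      have h4 : SimpleGraph.Walk.cons h p.bypass = q := congrArg Subtype.val h3
      rw [← h4, word_cons]

lemma word_closed (hΩ : Ω.IsAcyclic) (α : Labelling S Ω) {u : V} (p : Ω.Walk u u) :
    word α p = 1 := by
  rw [word_eq_of_acyclic hΩ α p SimpleGraph.Walk.nil (by simp)]
  simp [word]

/-- There is a labelling all of whose labels are `s` or `s⁻¹`. -/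
lemma exists_pm (s : F) (hs : s ∈ S.carrier) : ∃ α : Labelling S Ω, ∀ e, α.1 e = s ∨ α.1 e = s⁻¹ := by
  classical
  let _ : LinearOrder V := IsWellOrder.linearOrder WellOrderingRel
  refine ⟨⟨fun e => if e.fst < e.snd then s else s⁻¹, ?_, ?_⟩, ?_⟩
  · intro e
    dsimp only
    split_ifs
    · exact hs
    · exact S.inv_mem s hs
  · intro e
    have hne : e.fst ≠ e.snd := e.adj.ne
    rcases lt_or_gt_of_ne hne with h | h
    · have h' : ¬ (e.snd < e.fst) := not_lt.mpr h.le
      simp [SimpleGraph.Dart.symm, h, h']
    · have h' : ¬ (e.fst < e.snd) := not_lt.mpr h.le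
      simp [SimpleGraph.Dart.symm, h, h']
  · intro e
    dsimp only
    split_ifs
    · exact Or.inl rfl
    · exact Or.inr rfl

lemma unif_singleton_ne_zero [Finite V] (α : Labelling S Ω) : unif S Ω {α} ≠ 0 := by
  classical
  let _ : Fintype (Labelling S Ω) := Fintype.ofFinite _
  unfold unif
  rw [ProbabilityTheory.uniformOn_univ, Measure.count_singleton]
  exact ENNReal.div_ne_zero.mpr ⟨one_ne_zero, ENNReal.natCast_ne_top _⟩

end Tree

variable {k : ℕ} {S : LabelSet (FreeGroup (Fin k))}
  {V : ℕ → Type} [∀ n, Finite (V n)] {Ω : ∀ n, SimpleGraph (V n)}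

/-- If only finitely many of the graphs contain a cycle, and a homomorphism `ψ` from the free group
kills some label, then with positive probability `ψ` factors through the random group. -/
lemma pos_event (hΩ : {n | ¬ (Ω n).IsAcyclic}.Finite) {G : Type u} [Group G]
    (ψ : FreeGroup (Fin k) →* G) (s : FreeGroup (Fin k)) (hs : s ∈ S.carrier) (hψ : ψ s = 1) :
    labMeasure S Ω {α | ∀ r ∈ relators α, ψ r = 1} ≠ 0 := by
  classical
  choose β hβ using fun n => exists_pm (S := S) (Ω := Ω n) s hs
  have hsub : Set.pi (hΩ.toFinset : Set ℕ) (fun n => {β n}) ⊆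
      {α : Labellings S Ω | ∀ r ∈ relators α, ψ r = 1} := by
    intro α hα r hr
    obtain ⟨n, v, p, rfl⟩ := hr
    by_cases hn : (Ω n).IsAcyclic
    · rw [word_closed hn, map_one]
    · have h1 : α n = β n := hα n (by simpa using hn)
      rw [h1]
      have h2 : ∀ {u v : V n} (p : (Ω n).Walk u v), ψ (word (β n) p) = 1 := by
        intro u v p
        induction p with
        | nil => simp [word]
        | cons h p ih =>
          rw [word_cons, map_mul, ih, mul_one]
          rcases hβ n ⟨(_, _), h⟩ with h3 | h3
          · rw [h3, hψ]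
          · rw [h3, map_inv, hψ, inv_one]
      exact h2 p
  intro h0
  have h3 : labMeasure S Ω (Set.pi (hΩ.toFinset : Set ℕ) (fun n => {β n})) = 0 :=
    measure_mono_null hsub h0
  unfold labMeasure at h3
  rw [Measure.infinitePi_pi _ (fun n _ => MeasurableSpace.measurableSet_top)] at h3
  rw [Finset.prod_eq_zero_iff] at h3
  obtain ⟨n, -, hn⟩ := h3
  exact unif_singleton_ne_zero (β n) hn

/-- If only finitely many of the graphs contain a cycle, then the random group is not super-rigid
with respect to any group with an element of infinite order. -/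
theorem not_superRigid_of_finite (hΩ : {n | ¬ (Ω n).IsAcyclic}.Finite) {G : Type u} [Group G]
    (g : G) (hg : ¬ IsOfFinOrder g) (a b : Fin k) (hab : a ≠ b) (j : ℕ)
    (hs : FreeGroup.of a ^ j ∈ S.carrier) : ¬ SuperRigid S Ω G := by
  classical
  intro hrig
  let ψ : FreeGroup (Fin k) →* G := FreeGroup.lift (fun i => if i = b then g else 1)
  have hψa : ψ (FreeGroup.of a ^ j) = 1 := by
    rw [map_pow, FreeGroup.lift_apply_of, if_neg hab, one_pow]
  have hψb : ψ (FreeGroup.of b) = g := by
    rw [FreeGroup.lift_apply_of, if_pos rfl]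
  have hpos := pos_event (S := S) hΩ ψ _ hs hψa
  unfold SuperRigid at hrig
  rw [ae_iff] at hrig
  apply hpos
  refine measure_mono_null ?_ hrig
  intro α hα
  simp only [Set.mem_ofPred_eq] at hα ⊢
  intro hfin
  have hker : Subgroup.normalClosure (relators α) ≤ ψ.ker := by
    apply Subgroup.normalClosure_le_normal
    intro r hr
    exact hα r hr
  have h1 := hfin (QuotientGroup.lift _ ψ hker)
  apply hg
  have h2 : (Set.range (fun n : ℕ => g ^ n)).Finite := by
    refine h1.subset ?_
    rintro _ ⟨n, rfl⟩
    refine ⟨QuotientGroup.mk (FreeGroup.of b ^ n), ?_⟩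
    rw [QuotientGroup.lift_mk, map_pow, hψb]
  by_contra hinf
  have h3 : Function.Injective (fun n : ℕ => g ^ n) := injective_pow_iff_not_isOfFinOrder.mpr hinf
  exact (Set.infinite_range_of_injective h3) h2

end Pool.Agent.Y839.Mon
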