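import Pool.Agent.H698R4.Malcev

/-! Finitely generated linear groups over any field (in any universe) are residually finite. -/

set_option autoImplicit false

universe u v

namespace Pool.Agent.Y839.Mon

open Pool.Agent.H698R4

theorem ker_ne_bot_aux' (R : Type) (K : Type u) [CommRing R] [CommRing K] [Algebra R K]
    [IsJacobsonRing R] [Algebra.FiniteType R K] (hfK : IsField K) (hR : ¬ IsField R) :
    Module.Finite R K ∧ RingHom.ker (algebraMap R K) ≠ ⊥ := by
  have h1 : Module.Finite R K := by
    let i : Field K := hfK.toField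
    exact finite_of_finite_type_of_isJacobsonRing R K
  refine ⟨h1, fun hk => ?_⟩
  have hinj : Function.Injective (algebraMap R K) := (RingHom.injective_iff_ker_eq_bot _).mpr hk
  exact hR (isField_of_isIntegral_of_isField (R := R) (S := K) hinj hfK)

theorem finite_field_of_finiteType' (K : Type u) [CommRing K] [i : Algebra ℤ K]
    [Algebra.FiniteType ℤ K] (hfK : IsField K) : Finite K := by
  have hi : i = Ring.toIntAlgebra K := by
    refine Algebra.algebra_ext _ _ fun r => ?_
    have h1 := @map_intCast _ ℤ K _ _ _ _ (@algebraMap ℤ K _ _ i) r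
    have h2 := @map_intCast _ ℤ K _ _ _ _ (@algebraMap ℤ K _ _ (Ring.toIntAlgebra K)) r
    rw [Int.cast_id] at h1 h2
    rw [h1, h2]
  subst hi
  have := jacobson_int
  obtain ⟨h1, hker⟩ := ker_ne_bot_aux' ℤ K hfK Int.not_isField
  obtain ⟨n, hn, hn0⟩ := Submodule.exists_mem_ne_zero_of_ne_bot hker
  have hn1 : algebraMap ℤ K n = 0 := hn
  have hn2 : (n : K) = 0 := by
    have := map_intCast (algebraMap ℤ K) n
    rw [← hn1, ← this]
    simp
  have h2 : Module.Finite ℤ K := h1
  have htor : Module.IsTorsion ℤ K := by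
    intro x
    refine ⟨⟨n, mem_nonZeroDivisors_of_ne_zero hn0⟩, ?_⟩
    show n • x = 0
    rw [zsmul_eq_mul, hn2, zero_mul]
  exact Module.finite_of_fg_torsion K htor

/-- Malcev's theorem over an arbitrary field. -/
theorem malcev' {G : Type v} {ι : Type} [Group G] [Finite ι] (s : ι → G)
    (hs : Subgroup.closure (Set.range s) = ⊤) (F : Type u) [Field F] {m : ℕ}
    (ψ : G →* Matrix (Fin m) (Fin m) F) (g : G)
    (hg : ψ g ≠ 1) : ∃ (Q : Type u) (_ : Group Q) (_ : Finite Q) (q : G →* Q), q g ≠ 1 := by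
  classical
  let T : Set F := Set.range (fun p : (ι × Bool) × (Fin m × Fin m) =>
    ψ (if p.1.2 then s p.1.1 else (s p.1.1)⁻¹) p.2.1 p.2.2)
  have hT : T.Finite := Set.finite_range _
  let A := Algebra.adjoin ℤ T
  have hfg : A.FG := Subalgebra.fg_def.mpr ⟨T, hT, rfl⟩
  have hft : Algebra.FiniteType ℤ A := (Subalgebra.fg_iff_finiteType A).mp hfg
  have hent : ∀ x : G, (∀ a b, ψ x a b ∈ A) ∧ (∀ a b, ψ x⁻¹ a b ∈ A) := by
    intro x
    have hx : x ∈ Subgroup.closure (Set.range s) := by rw [hs]; trivial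
    induction hx using Subgroup.closure_induction with
    | mem x hx =>
      obtain ⟨i, rfl⟩ := hx
      exact ⟨fun a b => Algebra.subset_adjoin ⟨((i, true), (a, b)), rfl⟩,
        fun a b => Algebra.subset_adjoin ⟨((i, false), (a, b)), rfl⟩⟩
    | one =>
      have h1 : ∀ a b, (1 : Matrix (Fin m) (Fin m) F) a b ∈ A := by
        intro a b
        rw [Matrix.one_apply]
        split_ifs
        · exact A.one_mem
        · exact A.zero_mem
      rw [inv_one, map_one]
      exact ⟨h1, h1⟩
    | mul x y _ _ hx hy =>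
      rw [mul_inv_rev, map_mul, map_mul]
      refine ⟨fun a b => ?_, fun a b => ?_⟩
      · rw [Matrix.mul_apply]
        exact A.sum_mem fun c _ => A.mul_mem (hx.1 a c) (hy.1 c b)
      · rw [Matrix.mul_apply]
        exact A.sum_mem fun c _ => A.mul_mem (hy.2 a c) (hx.2 c b)
    | inv x _ hx =>
      rw [inv_inv]
      exact ⟨hx.2, hx.1⟩
  let M : G →* Matrix (Fin m) (Fin m) A :=
    { toFun := fun x => Matrix.of fun a b => ⟨ψ x a b, (hent x).1 a b⟩
      map_one' := by
        ext a b
        show ψ 1 a b = (((1 : Matrix (Fin m) (Fin m) A) a b : A) : F)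
        rw [map_one, Matrix.one_apply, Matrix.one_apply]
        split_ifs <;> simp
      map_mul' := fun x y => by
        ext a b
        show ψ (x * y) a b = _
        rw [map_mul, Matrix.mul_apply, Matrix.mul_apply]
        simp }
  have hM : ∀ x a b, ((M x a b : A) : F) = ψ x a b := fun _ _ _ => rfl
  have hne : ∃ a b, M g a b ≠ (1 : Matrix (Fin m) (Fin m) A) a b := by
    by_contra hcon
    push Not at hcon
    apply hg
    ext a b
    rw [← hM, hcon, Matrix.one_apply, Matrix.one_apply]
    split_ifs <;> simp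
  obtain ⟨a, b, hab⟩ := hne
  set t : A := M g a b - (1 : Matrix (Fin m) (Fin m) A) a b with ht
  have ht0 : t ≠ 0 := sub_ne_zero.mpr hab
  have := jacobson_int
  have hJ : IsJacobsonRing A := isJacobsonRing_of_finiteType (A := ℤ)
  have hjac : (⊥ : Ideal A).jacobson = ⊥ := hJ.out (Ideal.isRadical_bot)
  have hmax : ∃ P : Ideal A, P.IsMaximal ∧ t ∉ P := by
    by_contra hcon
    push Not at hcon
    have : t ∈ (⊥ : Ideal A).jacobson := by
      rw [Ideal.jacobson, Ideal.mem_sInf]
      rintro P ⟨-, hP⟩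
      exact hcon P hP
    rw [hjac, Ideal.mem_bot] at this
    exact ht0 this
  obtain ⟨P, hP, htP⟩ := hmax
  let K := A ⧸ P
  have hKft : Algebra.FiniteType ℤ K :=
    Algebra.FiniteType.of_surjective (Ideal.Quotient.mkₐ ℤ P) (Ideal.Quotient.mkₐ_surjective ℤ P)
  have hK : Finite K := finite_field_of_finiteType' K
    ((Ideal.Quotient.maximal_ideal_iff_isField_quotient P).mp hP)
  let R : G →* Matrix (Fin m) (Fin m) K := (Ideal.Quotient.mk P).mapMatrix.toMonoidHom.comp M
  refine ⟨(Matrix (Fin m) (Fin m) K)ˣ, inferInstance, inferInstance, R.toHomUnits, fun h => ?_⟩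
  have h1 : R g = 1 := congrArg Units.val h
  have h2 : Ideal.Quotient.mk P (M g a b) = (1 : Matrix (Fin m) (Fin m) K) a b :=
    congrFun (congrFun h1 a) b
  have h3 : Ideal.Quotient.mk P ((1 : Matrix (Fin m) (Fin m) A) a b) =
      (1 : Matrix (Fin m) (Fin m) K) a b := by
    rw [Matrix.one_apply, Matrix.one_apply]
    split_ifs <;> simp
  apply htP
  rw [← Ideal.Quotient.eq_zero_iff_mem, ht, map_sub, h2, h3, sub_self]

end Pool.Agent.Y839.Mon
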