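import Pool.Agent.Y839.Mon.Strong
import Pool.Agent.Y839.Mon.Malcev
import Pool.Agent.Y839.Mon.Conv

/-!
# Random monster groups: all targets on one null set, and the converse
-/

set_option autoImplicit false

open MeasureTheory Filter

universe u v

namespace Pool.Agent.Y839.Mon

open Pool.Agent.H862R3.Monster

/-- `H` is isomorphic to a subgroup of a finitely presented group. -/
def SubFP (H : Type u) [Group H] : Prop :=
  ∃ (n : ℕ) (R : Finset (FreeGroup (Fin n)))
    (ι : H →* PresentedGroup (R : Set (FreeGroup (Fin n)))), Function.Injective ι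

variable {k : ℕ} {S : LabelSet (FreeGroup (Fin k))}
  {V : ℕ → Type} [∀ n, Finite (V n)] {Ω : ∀ n, SimpleGraph (V n)}

lemma TwoValues.of_injective {A : Type v} {G : Type u} [Group G] {G' : Type} [Group G']
    (ι : G →* G') (hι : Function.Injective ι) {φ : A → G} (h : TwoValues (fun x => ι (φ x))) :
    TwoValues φ := by
  obtain ⟨c, hc⟩ := h
  by_cases hex : ∃ x, φ x ≠ 1
  · obtain ⟨x0, hx0⟩ := hex
    have h0 : ι (φ x0) = c := by
      rcases hc x0 with h | h
      · exact absurd (hι (h.trans (map_one ι).symm)) hx0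
      · exact h
    refine ⟨φ x0, fun x => ?_⟩
    rcases hc x with h | h
    · exact Or.inl (hι (h.trans (map_one ι).symm))
    · exact Or.inr (hι (h.trans h0.symm))
  · push Not at hex
    exact ⟨1, fun x => Or.inl (hex x)⟩

lemma kills_of_quot {α : Labellings S Ω}
    (h : ∀ m : ℕ, Kills α (Equiv.Perm (Fin m))) {G : Type u} [Group G] (Γ' : Subgroup (Gam α))
    (hΓ' : Γ'.FiniteIndex) (φ : Γ' →* G)
    (hrf : ∀ y : φ.range, y ≠ 1 →
      ∃ (Q : Type v) (_ : Group Q) (_ : Finite Q) (q : φ.range →* Q), q y ≠ 1) :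
    TwoValues φ := by
  apply kills_residuallyFinite h Γ' hΓ' φ
  intro y hy
  obtain ⟨Q, i1, i2, q, hq⟩ := hrf y hy
  obtain ⟨m, r, hr⟩ := exists_perm Q
  refine ⟨m, r.comp q, fun h0 => hq (hr ?_)⟩
  have h1 : r (q y) = 1 := h0
  exact h1.trans (map_one r).symm

/-- Everything on one null set: subgroups of finite index have index at most `2`, and homomorphisms
from them have at most two values, if the target is a member of the given countable family of
countable groups, or the image is residually finite, or the target is a general linear group over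
a field, or the target is embedded into a finitely presented group. -/
theorem all_targets (hk : 2 ≤ k) (hΩ : {n | ¬ (Ω n).IsAcyclic}.Infinite) (hgood : Good k S)
    (hEv : ∀ s ∈ S.carrier, ∀ s' ∈ S.carrier, s' * s⁻¹ ∈ Ev k)
    {I : Type} [Countable I] (G : I → Type u) [∀ i, Group (G i)] [∀ i, Countable (G i)] :
    ∀ᵐ α ∂(labMeasure S Ω), ∀ Γ' : Subgroup (Gam α), Γ'.FiniteIndex →
      Γ'.index ≤ 2 ∧
      (∀ (i : I) (φ : Γ' →* G i), TwoValues φ) ∧
      (∀ (H : Type u) [Group H] (φ : Γ' →* H), Group.ResiduallyFinite φ.range → TwoValues φ) ∧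
      (∀ (K : Type u) [Field K] (n : ℕ) (φ : Γ' →* GL (Fin n) K), TwoValues φ) ∧
      (∀ (H : Type u) [Group H] (φ : Γ' →* H), SubFP H → TwoValues φ) := by
  have h1 : ∀ᵐ α ∂(labMeasure S Ω), ∀ i, Kills α (G i) := by
    rw [ae_all_iff]
    exact fun i => ae_kills hk hΩ hgood hEv (G i)
  have h2 : ∀ᵐ α ∂(labMeasure S Ω), ∀ m : ℕ, Kills α (Equiv.Perm (Fin m)) := by
    rw [ae_all_iff]
    exact fun m => ae_kills hk hΩ hgood hEv _
  have h3 : ∀ᵐ α ∂(labMeasure S Ω), ∀ (p : Σ n : ℕ, Finset (FreeGroup (Fin n))),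
      Kills α (PresentedGroup (p.2 : Set (FreeGroup (Fin p.1)))) := by
    rw [ae_all_iff]
    intro p
    have : Countable (PresentedGroup (p.2 : Set (FreeGroup (Fin p.1)))) :=
      (QuotientGroup.mk'_surjective (Subgroup.normalClosure _)).countable
    exact ae_kills hk hΩ hgood hEv _
  filter_upwards [h1, h2, h3] with α a1 a2 a3 Γ' hΓ'
  refine ⟨(a2 0).index_le Γ' hΓ', fun i φ => (a1 i).twoValues Γ' hΓ' φ, ?_, ?_, ?_⟩
  · intro H _ φ hrf
    apply kills_of_quot a2 Γ' hΓ' φ
    intro y hy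
    obtain ⟨N, hN⟩ := Group.exists_finiteIndexNormalSubgroup_notMem y hy
    refine ⟨φ.range ⧸ N.toSubgroup, inferInstance, inferInstance,
      QuotientGroup.mk' N.toSubgroup, ?_⟩
    intro h0
    apply hN
    have h4 : y ∈ (QuotientGroup.mk' N.toSubgroup).ker := h0
    rw [QuotientGroup.ker_mk'] at h4
    exact h4
  · intro K _ n φ
    apply kills_of_quot a2 Γ' hΓ' φ
    intro y hy
    have hfgΓ : Group.FG (Gam α) := inferInstance
    have hfg' : Group.FG Γ' := Subgroup.fg_of_index_ne_zero Γ'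
    have hfg : Group.FG φ.range := Group.fg_of_surjective φ.rangeRestrict_surjective
    obtain ⟨T, hT⟩ := (Group.fg_def (G := φ.range)).mp hfg
    let s : Fin T.card → φ.range := fun i => (T.equivFin.symm i : φ.range)
    have hs : Subgroup.closure (Set.range s) = ⊤ := by
      rw [← hT]
      congr 1
      ext x
      constructor
      · rintro ⟨i, rfl⟩
        exact (T.equivFin.symm i).2
      · intro hx
        exact ⟨T.equivFin ⟨x, hx⟩, by simp [s]⟩
    let ψ : φ.range →* Matrix (Fin n) (Fin n) K := (Units.coeHom _).comp (Subgroup.subtype _)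
    refine malcev' s hs K ψ y ?_
    intro h0
    apply hy
    apply Subtype.ext
    apply Units.ext
    exact h0
  · intro H _ φ hH
    obtain ⟨n, R, ι, hι⟩ := hH
    have h4 := (a3 ⟨n, R⟩).twoValues Γ' hΓ' (ι.comp φ)
    exact TwoValues.of_injective ι hι h4

/-- For a countable group `G` with an element of infinite order, super-rigidity and hereditary
super-rigidity with respect to `G` hold if and only if infinitely many of the graphs contain a
cycle. -/
theorem rigid_iff (hk : 2 ≤ k) (hgood : Good k S)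
    (hEv : ∀ s ∈ S.carrier, ∀ s' ∈ S.carrier, s' * s⁻¹ ∈ Ev k) (j : ℕ)
    (hj : ∀ a : Fin k, FreeGroup.of a ^ j ∈ S.carrier)
    (G : Type u) [Group G] [Countable G] (hG : ∃ g : G, ¬ IsOfFinOrder g) :
    (SuperRigid S Ω G ↔ {n | ¬ (Ω n).IsAcyclic}.Infinite) ∧
    (HereditarySuperRigid S Ω G ↔ {n | ¬ (Ω n).IsAcyclic}.Infinite) := by
  obtain ⟨g, hg⟩ := hG
  have h1 : SuperRigid S Ω G → {n | ¬ (Ω n).IsAcyclic}.Infinite := by
    intro h hfin
    exact not_superRigid_of_finite hfin g hg (⟨0, by omega⟩ : Fin k) ⟨1, by omega⟩ (by simp) j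
      (hj _) h
  have h2 : {n | ¬ (Ω n).IsAcyclic}.Infinite → HereditarySuperRigid S Ω G :=
    fun h => hereditary hk h hgood hEv G
  exact ⟨⟨h1, fun h => superRigid_of_hereditary G (h2 h)⟩,
    ⟨fun h => h1 (superRigid_of_hereditary G h), h2⟩⟩

lemma pow_mem_Tpow (j : ℕ) (hk : 2 ≤ k) (a : Fin k) :
    FreeGroup.of a ^ j ∈ (Tpow k j hk).carrier := by
  refine ⟨List.replicate j (FreeGroup.of a), by simp, ?_, by simp⟩
  intro t ht
  rw [List.mem_replicate] at ht
  exact ⟨a, Or.inl ht.2⟩

lemma pow_mem_Red (j : ℕ) (hk : 2 ≤ k) (a : Fin k) :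
    FreeGroup.of a ^ j ∈ (Red k j hk).carrier := by
  change (FreeGroup.of a ^ j).toWord.length = j
  rw [FreeGroup.toWord_of_pow]
  simp

end Pool.Agent.Y839.Mon
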