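import Pool.Agent.Y839.Mon.Fam

/-!
# Biautomatic groups are finitely presented
-/

set_option autoImplicit false

universe u

namespace Pool.Agent.Y839.Mon

open Pool.Agent.H862R3.Monster

lemma ev_append {G : Type u} [Group G] {A : Set G} (w w' : List A) :
    ev (w ++ w') = ev w * ev w' := by
  simp [ev]

lemma ev_nil {G : Type u} [Group G] {A : Set G} : ev ([] : List A) = 1 := by simp [ev]

/-- A group with a finite set `A` and words `σ g` representing `g` with the fellow traveller
property is finitely presented. -/
theorem subFP_of_combing {G : Type u} [Group G] (A : Set G) (hA : A.Finite) (σ : G → List A)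
    (hσ : ∀ g, ev (σ g) = g) (K : ℕ)
    (hK : ∀ (g : G) (a : A) (t : ℕ),
      ∃ w : List A, w.length ≤ K ∧ ev ((σ g).take t) * ev w = ev ((σ (g * a)).take t)) :
    SubFP G := by
  classical
  have : Finite A := hA
  obtain ⟨n, ⟨e⟩⟩ := Finite.exists_equiv_fin A
  let θ : FreeGroup (Fin n) →* G := FreeGroup.lift (fun i => ((e.symm i : A) : G))
  let W : List A → FreeGroup (Fin n) := fun w => (w.map (fun a => FreeGroup.of (e a))).prod
  have hW_app : ∀ w w', W (w ++ w') = W w * W w' := fun w w' => by simp [W]
  have hW_nil : W [] = 1 := by simp [W]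
  have hθW : ∀ w, θ (W w) = ev w := by
    intro w
    induction w with
    | nil => simp [W, ev]
    | cons a w ih =>
      have h1 : W (a :: w) = FreeGroup.of (e a) * W w := by simp [W]
      have h2 : ev (a :: w) = (a : G) * ev w := by simp [ev]
      rw [h1, map_mul, ih, h2]
      congr 1
      simp [θ]
  have hnorm : ∀ w, (W w).norm ≤ w.length := by
    intro w
    induction w with
    | nil => simp [W]
    | cons a w ih =>
      have h1 : W (a :: w) = FreeGroup.of (e a) * W w := by simp [W]
      rw [h1]
      refine (FreeGroup.norm_mul_le _ _).trans ?_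
      rw [FreeGroup.norm_of, List.length_cons]
      omega
  have hfin : {r : FreeGroup (Fin n) | r.norm ≤ 2 * K + 2 ∧ θ r = 1}.Finite := by
    have h : {l : List (Fin n × Bool) | l.length ≤ 2 * K + 2}.Finite := List.finite_length_le _ _
    refine (h.preimage (f := FreeGroup.toWord) (FreeGroup.toWord_injective.injOn)).subset ?_
    intro r hr
    exact hr.1
  let R : Finset (FreeGroup (Fin n)) := hfin.toFinset
  let q : FreeGroup (Fin n) →* PresentedGroup (R : Set (FreeGroup (Fin n))) :=
    QuotientGroup.mk' (Subgroup.normalClosure (R : Set (FreeGroup (Fin n))))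
  have hq : ∀ r : FreeGroup (Fin n), r.norm ≤ 2 * K + 2 → θ r = 1 → q r = 1 := by
    intro r h1 h2
    have h3 : r ∈ Subgroup.normalClosure (R : Set (FreeGroup (Fin n))) := by
      apply Subgroup.subset_normalClosure
      simp only [R, Set.Finite.coe_toFinset]
      exact ⟨h1, h2⟩
    exact (QuotientGroup.eq_one_iff r).mpr h3
  -- one letter
  have c1 : ∀ (g : G) (a : A), q (W (σ g)) * q (W [a]) = q (W (σ (g * a))) := by
    intro g a
    choose w hwl hw using hK g a
    have hstep : ∀ t, q (W ((σ g).take t)) * q (W (w t)) = q (W ((σ (g * a)).take t)) := by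
      intro t
      induction t with
      | zero =>
        have h0 : q (W (w 0)) = 1 := by
          apply hq
          · exact ((hnorm _).trans (hwl 0)).trans (by omega)
          · rw [hθW]
            have := hw 0
            simpa [ev_nil] using this
        rw [h0, List.take_zero, List.take_zero, hW_nil, map_one, mul_one]
      | succ t ih =>
        have hu : (σ g).take (t + 1) = (σ g).take t ++ ((σ g).drop t).take 1 := List.take_add
        have hv : (σ (g * a)).take (t + 1) =
            (σ (g * a)).take t ++ ((σ (g * a)).drop t).take 1 := List.take_add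
        set x := ((σ g).drop t).take 1 with hx
        set y := ((σ (g * a)).drop t).take 1 with hy
        have hxl : x.length ≤ 1 := by rw [hx]; exact List.length_take_le _ _
        have hyl : y.length ≤ 1 := by rw [hy]; exact List.length_take_le _ _
        have h1 := hw t
        have h2 := hw (t + 1)
        rw [hu, hv, ev_append, ev_append, ← h1, mul_assoc, mul_assoc, mul_left_cancel_iff] at h2
        -- `h2 : ev x * ev (w (t+1)) = ev (w t) * ev y`
        have hr : q ((W (w t))⁻¹ * W x * W (w (t + 1)) * (W y)⁻¹) = 1 := by
          apply hq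
          · have e1 := FreeGroup.norm_mul_le ((W (w t))⁻¹ * W x * W (w (t + 1))) (W y)⁻¹
            have e2 := FreeGroup.norm_mul_le ((W (w t))⁻¹ * W x) (W (w (t + 1)))
            have e3 := FreeGroup.norm_mul_le (W (w t))⁻¹ (W x)
            rw [FreeGroup.norm_inv_eq] at e1 e3
            have f1 := (hnorm (w t)).trans (hwl t)
            have f2 := (hnorm (w (t + 1))).trans (hwl (t + 1))
            have f3 := (hnorm x).trans hxl
            have f4 := (hnorm y).trans hyl
            omega
          · rw [map_mul, map_mul, map_mul, map_inv, map_inv, hθW, hθW, hθW, hθW, mul_assoc _ (ev x),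
              h2]
            group
        rw [map_mul, map_mul, map_mul, map_inv, map_inv] at hr
        have hr2 : q (W x) * q (W (w (t + 1))) = q (W (w t)) * q (W y) := by
          have h3 := mul_inv_eq_one.mp hr
          rw [mul_assoc, inv_mul_eq_iff_eq_mul] at h3
          exact h3
        rw [hu, hv, hW_app, hW_app, map_mul, map_mul, mul_assoc, hr2, ← mul_assoc, ih]
    set N := max (σ g).length (σ (g * a)).length with hN
    have h4 := hstep N
    have h5 := hw N
    rw [List.take_of_length_le (le_max_left _ _), List.take_of_length_le (le_max_right _ _)] at h4 h5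
    rw [hσ, hσ, mul_left_cancel_iff] at h5
    have h6 : q (W (w N) * (W [a])⁻¹) = 1 := by
      apply hq
      · have e1 := FreeGroup.norm_mul_le (W (w N)) (W [a])⁻¹
        rw [FreeGroup.norm_inv_eq] at e1
        have f1 := (hnorm (w N)).trans (hwl N)
        have f2 := hnorm [a]
        rw [List.length_singleton] at f2
        omega
      · rw [map_mul, map_inv, hθW, hθW, h5]
        simp [ev]
    rw [map_mul, map_inv, mul_inv_eq_one] at h6
    rw [← h6]
    exact h4
  have c2 : ∀ (w : List A) (g : G), q (W (σ g)) * q (W w) = q (W (σ (g * ev w))) := by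
    intro w
    induction w with
    | nil => intro g; rw [hW_nil, ev_nil, map_one, mul_one, mul_one]
    | cons a w ih =>
      intro g
      have h1 : W (a :: w) = W [a] * W w := by rw [← hW_app]; rfl
      have h2 : ev (a :: w) = (a : G) * ev w := by simp [ev]
      rw [h1, map_mul, ← mul_assoc, c1, ih, h2, mul_assoc]
  have c3 : ∀ w : List A, (q (W (σ 1)))⁻¹ * q (W (σ (ev w))) = q (W w) := by
    intro w
    have := c2 w 1
    rw [one_mul] at this
    rw [← this]
    group
  let ι : G →* PresentedGroup (R : Set (FreeGroup (Fin n))) :=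
    MonoidHom.mk' (fun g => (q (W (σ 1)))⁻¹ * q (W (σ g))) (by
      intro g h
      have e1 := c3 (σ g ++ σ h)
      have e2 := c3 (σ g)
      have e3 := c3 (σ h)
      rw [ev_append, hσ, hσ] at e1
      rw [hσ] at e2 e3
      rw [e1, e2, e3, hW_app, map_mul])
  have hθR : Subgroup.normalClosure (R : Set (FreeGroup (Fin n))) ≤ θ.ker := by
    apply Subgroup.normalClosure_le_normal
    intro r hr
    simp only [R, Set.Finite.coe_toFinset] at hr
    exact hr.2
  let θ' : PresentedGroup (R : Set (FreeGroup (Fin n))) →* G := QuotientGroup.lift _ θ hθR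
  refine ⟨n, R, ι, ?_⟩
  have hleft : Function.LeftInverse θ' ι := by
    intro g
    have e2 := c3 (σ g)
    rw [hσ] at e2
    change θ' ((q (W (σ 1)))⁻¹ * q (W (σ g))) = g
    rw [e2]
    change θ (W (σ g)) = g
    rw [hθW, hσ]
  exact hleft.injective

/-- Biautomatic groups are finitely presented. -/
theorem subFP_of_biautomatic {G : Type u} [Group G] (hG : IsBiautomatic G) : SubFP G := by
  obtain ⟨A, hA, -, -, L, -, hL, K, hK⟩ := hG
  choose σ hσL hσ using hL
  refine subFP_of_combing A hA σ hσ K ?_
  intro g a t
  obtain ⟨w, hw, h⟩ := hK (σ g) (hσL g) (σ (g * a)) (hσL _) a 1 (Or.inl a.2) (Or.inr rfl)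
    (by rw [hσ, hσ, one_mul]) t
  exact ⟨w, hw, by rw [h, one_mul]⟩

end Pool.Agent.Y839.Mon
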