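import Pool.Agent.Y839.Mon.All

/-!
# Random monster groups: the two forms of super-rigidity, and outer automorphism groups
-/

set_option autoImplicit false

open MeasureTheory Filter

universe u

namespace Pool.Agent.Y839.Mon

open Pool.Agent.H862R3.Monster

/-- The two forms of super-rigidity are equivalent (axiom of choice). -/
theorem family_iff {F : Type} [Group F] {S : LabelSet F}
    {V : ℕ → Type} [∀ n, Finite (V n)] {Ω : ∀ n, SimpleGraph (V n)} (G : Type u) [Group G] :
    SuperRigidFamily S Ω G ↔ SuperRigid S Ω G := by
  classical
  refine ⟨fun h => ?_, family_of_superRigid G⟩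
  have h1 := h (fun α => if hex : ∃ φ : Gam α →* G, ¬ (Set.range φ).Finite then hex.choose else 1)
  unfold SuperRigid
  filter_upwards [h1] with α hα φ
  by_contra hφ
  have hex : ∃ φ : Gam α →* G, ¬ (Set.range φ).Finite := ⟨φ, hφ⟩
  rw [dif_pos hex] at hα
  exact hex.choose_spec hα

instance countable_graph (m : ℕ) : Countable (SimpleGraph (Fin m)) := by
  classical
  have : Finite (SimpleGraph (Fin m)) := by
    refine Finite.of_injective (fun G : SimpleGraph (Fin m) => G.Adj) ?_
    intro G H h
    exact SimpleGraph.ext h
  infer_instance

end Pool.Agent.Y839.Mon
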