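import Pool.Agent.Y839.Mon.Biaut

/-!
# Random monster groups: names for the statements
-/

set_option autoImplicit false

open MeasureTheory

universe u

namespace Pool.Agent.Y839.Mon

open Pool.Agent.H862R3.Monster

/-- Infinitely many of the graphs contain a cycle. -/
def InfCyc {V : ℕ → Type} (Ω : ∀ n, SimpleGraph (V n)) : Prop := {n | ¬ (Ω n).IsAcyclic}.Infinite

/-- The standing assumptions and a bound of the degrees imply that infinitely many of the graphs
contain a cycle. -/
def StandingInfCyc : Prop :=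
  ∀ (d : ℕ) (V : ℕ → Type) [∀ n, Finite (V n)] (Ω : ∀ n, SimpleGraph (V n)),
    Standing Ω → (∀ n v, ((Ω n).neighborSet v).ncard ≤ d) → InfCyc Ω

/-- The group `H` is residually finite, or isomorphic to a subgroup of `GL_n(K)` for some field `K`
and some `n`, or isomorphic to a subgroup of a finitely presented group. -/
def Tame (H : Type u) [Group H] : Prop :=
  Group.ResiduallyFinite H ∨
  (∃ (K : Type u) (_ : Field K) (n : ℕ) (f : H →* GL (Fin n) K), Function.Injective f) ∨
  SubFP H

/-- All homomorphisms from subgroups of finite index of `Γ` to `G` have at most two values: `1`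
and possibly one further element `c`. -/
def TwoTo (Γ : Type) [Group Γ] (G : Type u) [Group G] : Prop :=
  ∀ Γ' : Subgroup Γ, Γ'.FiniteIndex → ∀ φ : Γ' →* G, ∃ c : G, ∀ x, φ x = 1 ∨ φ x = c

/-- All subgroups of finite index of `Γ` have index at most `2`, and their homomorphisms to all
residually finite groups, to all linear groups over fields, and to all groups embedded into
finitely presented groups have at most two values. -/
def Uni (Γ : Type) [Group Γ] : Prop :=
  (∀ Γ' : Subgroup Γ, Γ'.FiniteIndex → Γ'.index ≤ 2) ∧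
  ∀ (H : Type u) [Group H], Tame H → TwoTo Γ H

/-- All homomorphisms from subgroups of finite index of `Γ` to `G` have finite image. -/
def HFin (Γ : Type) [Group Γ] (G : Type u) [Group G] : Prop :=
  ∀ Γ' : Subgroup Γ, Γ'.FiniteIndex → ∀ φ : Γ' →* G, (Set.range φ).Finite

variable {k : ℕ} (S : LabelSet (FreeGroup (Fin k)))
  {V : ℕ → Type} [∀ n, Finite (V n)] (Ω : ∀ n, SimpleGraph (V n))

/-- Hereditary super-rigidity with respect to `G`: for almost every labelling `α`, every
homomorphism from a subgroup of finite index of `Γ_α` to `G` has finite image. -/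
def Hered (G : Type u) [Group G] : Prop :=
  ∀ᵐ α ∂(labMeasure S Ω), HFin (Gam α) G

/-- Super-rigidity (both forms) and hereditary super-rigidity with respect to `G` are equivalent to
the existence of infinitely many graphs with a cycle. -/
def Crit (G : Type u) [Group G] : Prop :=
  (SuperRigid S Ω G ↔ InfCyc Ω) ∧ (SuperRigidFamily S Ω G ↔ InfCyc Ω) ∧
    (Hered S Ω G ↔ InfCyc Ω)

/-- For almost every labelling `α`: `Uni (Γ_α)`, and homomorphisms from subgroups of finite index
of `Γ_α` to the groups `G i` have at most two values. -/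
def AlmostAll {I : Type} (G : I → Type u) [∀ i, Group (G i)] : Prop :=
  ∀ᵐ α ∂(labMeasure S Ω), Uni.{u} (Gam α) ∧ ∀ i, TwoTo (Gam α) (G i)

/-- For almost every labelling `α`: `Uni (Γ_α)`, and homomorphisms from subgroups of finite index
of `Γ_α` to biautomatic groups have at most two values. -/
def AlmostAllBiautomatic : Prop :=
  ∀ᵐ α ∂(labMeasure S Ω), Uni.{u} (Gam α) ∧
    ∀ (G : Type u) [Group G], IsBiautomatic G → TwoTo (Gam α) G

/-- Super-rigidity and hereditary super-rigidity with respect to `Out(A_Λ)` for all finite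
graphs `Λ`. -/
def OutRigid : Prop :=
  ∀ (W : Type) [Finite W] (Λ : SimpleGraph W),
    SuperRigidFamily S Ω (Outer (RAAG Λ)) ∧ Hered S Ω (Outer (RAAG Λ))

/-- For almost every labelling `α`, simultaneously for all finite graphs `Λ`: homomorphisms from
subgroups of finite index of `Γ_α` to `Out(A_Λ)` have at most two values; and `Uni (Γ_α)`. -/
def OutAlmostAll : Prop :=
  ∀ᵐ α ∂(labMeasure S Ω), Uni.{0} (Gam α) ∧
    ∀ (m : ℕ) (Λ : SimpleGraph (Fin m)), TwoTo (Gam α) (Outer (RAAG Λ))

/-- For all finite graphs `Λ` such that `Out(A_Λ)` has an element of infinite order, the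
equivalences `Crit`. -/
def OutCrit : Prop :=
  ∀ (W : Type) [Finite W] (Λ : SimpleGraph W), (∃ g : Outer (RAAG Λ), ¬ IsOfFinOrder g) →
    Crit S Ω (Outer (RAAG Λ))

theorem standingInfCyc : StandingInfCyc := by
  intro d V _ Ω hst hdeg
  exact infinite_not_acyclic hst hdeg

variable {S Ω}

theorem uni (hk : 2 ≤ k) (hΩ : InfCyc Ω) (hgood : Good k S)
    (hEv : ∀ s ∈ S.carrier, ∀ s' ∈ S.carrier, s' * s⁻¹ ∈ Ev k)
    {I : Type} [Countable I] (G : I → Type u) [∀ i, Group (G i)] [∀ i, Countable (G i)] :
    AlmostAll S Ω G := by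
  have h := all_targets hk hΩ hgood hEv G
  unfold AlmostAll
  filter_upwards [h] with α hα
  refine ⟨⟨fun Γ' hΓ' => (hα Γ' hΓ').1, fun H _ hH => ?_⟩, fun i Γ' hΓ' φ => (hα Γ' hΓ').2.1 i φ⟩
  intro Γ' hΓ' φ
  obtain ⟨-, -, h3, h4, h5⟩ := hα Γ' hΓ'
  rcases hH with hH | hH | hH
  · exact h3 H φ inferInstance
  · obtain ⟨K, i1, n, f, hf⟩ := hH
    obtain ⟨c, hc⟩ := h4 K n (f.comp φ)
    by_cases hex : ∃ x, φ x ≠ 1
    · obtain ⟨x0, hx0⟩ := hex
      have h0 : f (φ x0) = c := by
        rcases hc x0 with h | h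
        · exact absurd (hf (h.trans (map_one f).symm)) hx0
        · exact h
      refine ⟨φ x0, fun x => ?_⟩
      rcases hc x with h | h
      · exact Or.inl (hf (h.trans (map_one f).symm))
      · exact Or.inr (hf (h.trans h0.symm))
    · push Not at hex
      exact ⟨1, fun x => Or.inl (hex x)⟩
  · exact h5 H φ hH

theorem crit (hk : 2 ≤ k) (hgood : Good k S)
    (hEv : ∀ s ∈ S.carrier, ∀ s' ∈ S.carrier, s' * s⁻¹ ∈ Ev k) (j : ℕ)
    (hj : ∀ a : Fin k, FreeGroup.of a ^ j ∈ S.carrier)
    (G : Type u) [Group G] [Countable G] (hG : ∃ g : G, ¬ IsOfFinOrder g) : Crit S Ω G := by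
  obtain ⟨h1, h2⟩ := rigid_iff (Ω := Ω) hk hgood hEv j hj G hG
  exact ⟨h1, (family_iff G).trans h1, h2⟩

theorem hered_iff (G : Type u) [Group G] : Hered S Ω G ↔ HereditarySuperRigid S Ω G := Iff.rfl

theorem tame_of_biautomatic {G : Type u} [Group G] (hG : IsBiautomatic G) : Tame G :=
  Or.inr (Or.inr (subFP_of_biautomatic hG))

end Pool.Agent.Y839.Mon
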