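import Pool.Agent.H862R3.Monster.Targets

/-!
# Random monster groups: all targets at once

For almost every labelling every homomorphism from a subgroup of finite index kills all even
words. Consequences, all on one null set: subgroups of finite index have index at most `2`, and
homomorphisms from them to groups which are residually finite, or linear over a field, or embedded
into a finitely presented group have at most two values.
-/

set_option autoImplicit false

open MeasureTheory Filter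

universe u v

namespace Pool.Agent.Y839.Mon

open Pool.Agent.H862R3.Monster

variable {k : ℕ} {S : LabelSet (FreeGroup (Fin k))}
  {V : ℕ → Type} [∀ n, Finite (V n)] {Ω : ∀ n, SimpleGraph (V n)}

/-- The projection of the free group onto `Γ_α`. -/
abbrev cl (α : Labellings S Ω) : FreeGroup (Fin k) →* Gam α :=
  QuotientGroup.mk' (Subgroup.normalClosure (relators α))

/-- All homomorphisms from subgroups of finite index of `Γ_α` to `G` kill all even words. -/
def Kills (α : Labellings S Ω) (G : Type u) [Group G] : Prop :=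
  ∀ Γ' : Subgroup (Gam α), Γ'.FiniteIndex → ∀ φ : Γ' →* G, ∀ g : FreeGroup (Fin k), g ∈ Ev k →
    ∃ h : cl α g ∈ Γ', φ ⟨cl α g, h⟩ = 1

theorem ae_kills (hk : 2 ≤ k) (hΩ : {n | ¬ (Ω n).IsAcyclic}.Infinite) (hgood : Good k S)
    (hEv : ∀ s ∈ S.carrier, ∀ s' ∈ S.carrier, s' * s⁻¹ ∈ Ev k)
    (G : Type u) [Group G] [Countable G] : ∀ᵐ α ∂(labMeasure S Ω), Kills α G := by
  classical
  have hTop : ∀ s ∈ S.carrier, ∀ s' ∈ S.carrier,
      s' * s⁻¹ ∈ (⊤ : Subgroup (FreeGroup (Fin k))) := fun _ _ _ _ => Subgroup.mem_top _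
  have hfgTop : Group.FG (⊤ : Subgroup (FreeGroup (Fin k))) := by
    rw [Group.fg_iff_subgroup_fg]
    exact Group.FG.out
  have c1 : ∀ m : ℕ, Countable ((⊤ : Subgroup (FreeGroup (Fin k))) →* Equiv.Perm (Fin m)) :=
    fun m => countable_hom _ _
  have c2 : Countable ((⊤ : Subgroup (FreeGroup (Fin k))) →* G) := countable_hom _ _
  have c3 : Countable (Ev k →* G) := countable_hom _ _
  have h1 : ∀ᵐ α ∂(labMeasure S Ω), ∀ m : ℕ,
      ∀ ψ : (⊤ : Subgroup (FreeGroup (Fin k))) →* Equiv.Perm (Fin m),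
      (∀ r ∈ relators α, ∃ h : r ∈ (⊤ : Subgroup (FreeGroup (Fin k))), ψ ⟨r, h⟩ = 1) →
      ∀ s s' : FreeGroup (Fin k), ∀ (hs : s ∈ S.carrier) (hs' : s' ∈ S.carrier),
        ψ ⟨s' * s⁻¹, hTop s hs s' hs'⟩ = 1 := by
    rw [ae_all_iff]
    intro m
    exact ae_hom hΩ _ _ hTop
  have h2 := ae_hom (S := S) hΩ ⊤ G hTop
  have h3 := ae_hom (S := S) hΩ (Ev k) G hEv
  filter_upwards [h1, h2, h3] with α a1 a2 a3 Γ' hΓ' φ
  set N : Subgroup (FreeGroup (Fin k)) := Subgroup.normalClosure (relators α) with hN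
  set H : Subgroup (FreeGroup (Fin k)) := Γ'.comap (QuotientGroup.mk' N) with hH
  have hNH : N ≤ H := by
    intro n hn
    rw [hH, Subgroup.mem_comap]
    have : (QuotientGroup.mk' N) n = 1 := by
      rw [← MonoidHom.mem_ker, QuotientGroup.ker_mk']
      exact hn
    rw [this]
    exact Γ'.one_mem
  have hrelN : ∀ r ∈ relators α, r ∈ N := fun r hr => Subgroup.subset_normalClosure hr
  have hHfin : H.FiniteIndex := by
    have hs : Function.Surjective (QuotientGroup.mk' N) := QuotientGroup.mk'_surjective N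
    refine ⟨?_⟩
    rw [hH, Subgroup.index_comap_of_surjective _ hs]
    exact hΓ'.index_ne_zero
  -- the action on the cosets of `H`
  have hEH : Ev k ≤ H := by
    apply Ev_le_of_quot hk
    intro a ha a' ha'
    have : Finite (FreeGroup (Fin k) ⧸ H) := Subgroup.finite_quotient_of_finiteIndex
    obtain ⟨m, ⟨e⟩⟩ := Finite.exists_equiv_fin (FreeGroup (Fin k) ⧸ H)
    let ψ₀ : FreeGroup (Fin k) →* Equiv.Perm (FreeGroup (Fin k) ⧸ H) :=
      MulAction.toPermHom _ _
    let ψ : (⊤ : Subgroup (FreeGroup (Fin k))) →* Equiv.Perm (Fin m) :=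
      (e.permCongrHom.toMonoidHom.comp ψ₀).comp (Subgroup.subtype _)
    have hkill : ∀ r ∈ relators α, ∃ h : r ∈ (⊤ : Subgroup (FreeGroup (Fin k))),
        ψ ⟨r, h⟩ = 1 := by
      intro r hr
      refine ⟨Subgroup.mem_top _, ?_⟩
      have : ψ₀ r = 1 := by
        ext x
        induction x using QuotientGroup.induction_on with
        | H x =>
          change ((r * x : FreeGroup (Fin k)) : FreeGroup (Fin k) ⧸ H) = (x : _)
          rw [QuotientGroup.eq]
          apply hNH
          have hn : N.Normal := Subgroup.normalClosure_normal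
          have := hn.conj_mem _ (N.inv_mem (hrelN r hr)) x⁻¹
          simpa [mul_assoc] using this
      change e.permCongrHom (ψ₀ r) = 1
      rw [this, map_one]
    obtain ⟨s, hs, s', hs', hss⟩ := hgood.quot a ha a' ha'
    have := a1 m ψ hkill s s' hs hs'
    change e.permCongrHom (ψ₀ (s' * s⁻¹)) = 1 at this
    rw [hss, ← map_one e.permCongrHom] at this
    have h5 : ψ₀ (a' * a⁻¹) = 1 := e.permCongrHom.injective this
    have h6 : ψ₀ (a' * a⁻¹) ((1 : FreeGroup (Fin k)) : FreeGroup (Fin k) ⧸ H)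
        = ((1 : FreeGroup (Fin k)) : FreeGroup (Fin k) ⧸ H) := by rw [h5]; rfl
    change ((a' * a⁻¹ * 1 : FreeGroup (Fin k)) : FreeGroup (Fin k) ⧸ H) = _ at h6
    rw [mul_one, eq_comm, QuotientGroup.eq] at h6
    simpa using h6
  -- the homomorphism on `H`
  let π : H →* Γ' := ((QuotientGroup.mk' N).comp H.subtype).codRestrict Γ' (fun x => x.2)
  let f : H →* G := φ.comp π
  have hfN : ∀ n (hn : n ∈ N), f ⟨n, hNH hn⟩ = 1 := by
    intro n hn
    change φ (π ⟨n, hNH hn⟩) = 1
    have : π ⟨n, hNH hn⟩ = 1 := by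
      apply Subtype.ext
      change (QuotientGroup.mk' N) n = 1
      rw [← MonoidHom.mem_ker, QuotientGroup.ker_mk']
      exact hn
    rw [this, map_one]
  -- `f` kills all words of even length
  have hfE : ∀ g (hg : g ∈ Ev k), f ⟨g, hEH hg⟩ = 1 := by
    let fE : Ev k →* G := f.comp (Subgroup.inclusion hEH)
    suffices hs : ∀ a ∈ T k, ∀ a' ∈ T k, ∀ h : a' * a⁻¹ ∈ Ev k, fE ⟨a' * a⁻¹, h⟩ = 1 by
      -- the kernel of `fE` contains all quotients
      have hle : Ev k ≤ (fE.ker).map (Ev k).subtype := by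
        apply Ev_le_of_quot hk
        intro a ha a' ha'
        have hm : a' * a⁻¹ ∈ Ev k := by
          rw [Ev, MonoidHom.mem_ker, map_mul, map_inv, par_T ha, par_T ha']
          simp
        exact ⟨⟨a' * a⁻¹, hm⟩, hs a ha a' ha' hm, rfl⟩
      intro g hg
      obtain ⟨x, hx, hxg⟩ := hle hg
      have hx' : x = ⟨g, hg⟩ := Subtype.ext hxg
      rw [hx'] at hx
      exact hx
    intro a ha a' ha' hm
    obtain ⟨s, hs, s', hs', hss⟩ := hgood.quot a ha a' ha'
    by_cases hcase : ∀ r ∈ relators α, r ∈ Ev k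
    · have := a3 fE (fun r hr => ⟨hcase r hr, hfN r (hrelN r hr)⟩) s s' hs hs'
      have h7 : (⟨s' * s⁻¹, hEv s hs s' hs'⟩ : Ev k) = ⟨a' * a⁻¹, hm⟩ := Subtype.ext hss
      rw [h7] at this
      exact this
    · -- then `H` is the whole group
      push Not at hcase
      obtain ⟨r, hr, hrE⟩ := hcase
      have hHtop : ∀ g, g ∈ H := by
        intro g
        by_cases hg : g ∈ Ev k
        · exact hEH hg
        · have h8 : g * r⁻¹ ∈ Ev k := by
            rw [Ev, MonoidHom.mem_ker] at hg hrE ⊢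
            rw [map_mul, map_inv]
            rcases Int.units_eq_one_or (par k g) with h | h
            · exact absurd h hg
            · rcases Int.units_eq_one_or (par k r) with h' | h'
              · exact absurd h' hrE
              · rw [h, h']; decide
          have := H.mul_mem (hEH h8) (hNH (hrelN r hr))
          simpa using this
      let ft : (⊤ : Subgroup (FreeGroup (Fin k))) →* G :=
        f.comp (Subgroup.inclusion (fun g _ => hHtop g))
      have := a2 ft (fun r hr => ⟨Subgroup.mem_top _, hfN r (hrelN r hr)⟩) s s' hs hs'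
      have h7 : (⟨s' * s⁻¹, hTop s hs s' hs'⟩ : (⊤ : Subgroup (FreeGroup (Fin k))))
          = ⟨a' * a⁻¹, Subgroup.mem_top _⟩ := Subtype.ext hss
      rw [h7] at this
      exact this
  intro g hg
  exact ⟨hEH hg, hfE g hg⟩

/-- A map with at most two values, one of them `1`. -/
def TwoValues {A : Type v} {G : Type u} [Group G] (φ : A → G) : Prop :=
  ∃ c : G, ∀ x, φ x = 1 ∨ φ x = c

lemma TwoValues.finite {A : Type v} {G : Type u} [Group G] {φ : A → G} (h : TwoValues φ) :
    (Set.range φ).Finite := by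
  obtain ⟨c, hc⟩ := h
  refine (Set.toFinite ({1, c} : Set G)).subset ?_
  rintro _ ⟨x, rfl⟩
  rcases hc x with h | h
  · exact Or.inl h
  · exact Or.inr h

/-- Homomorphisms killing even words have at most two values. -/
lemma twoValues_of {α : Labellings S Ω} {G : Type u} [Group G] (Γ' : Subgroup (Gam α))
    (φ : Γ' →* G) (h : ∀ g : FreeGroup (Fin k), g ∈ Ev k →
      ∃ h : cl α g ∈ Γ', φ ⟨cl α g, h⟩ = 1) : TwoValues φ := by
  by_cases hodd : ∃ g : FreeGroup (Fin k), g ∉ Ev k ∧ cl α g ∈ Γ'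
  · obtain ⟨r, hr, hrΓ⟩ := hodd
    refine ⟨φ ⟨cl α r, hrΓ⟩, ?_⟩
    rintro ⟨x, hx⟩
    obtain ⟨g, rfl⟩ := QuotientGroup.mk'_surjective _ x
    by_cases hg : g ∈ Ev k
    · left
      obtain ⟨h1, h2⟩ := h g hg
      exact h2
    · right
      have h8 : g * r⁻¹ ∈ Ev k := by
        rw [Ev, MonoidHom.mem_ker] at hg hr ⊢
        rw [map_mul, map_inv]
        rcases Int.units_eq_one_or (par k g) with h | h
        · exact absurd h hg
        · rcases Int.units_eq_one_or (par k r) with h' | h'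
          · exact absurd h' hr
          · rw [h, h']; decide
      obtain ⟨h1, h2⟩ := h _ h8
      have h3 : (⟨cl α (g * r⁻¹), h1⟩ : Γ') = ⟨cl α g, hx⟩ * (⟨cl α r, hrΓ⟩ : Γ')⁻¹ := by
        apply Subtype.ext
        simp
      rw [h3, map_mul, map_inv, mul_inv_eq_one] at h2
      exact h2
  · push Not at hodd
    refine ⟨1, ?_⟩
    rintro ⟨x, hx⟩
    obtain ⟨g, rfl⟩ := QuotientGroup.mk'_surjective _ x
    left
    by_cases hg : g ∈ Ev k
    · obtain ⟨h1, h2⟩ := h g hg
      exact h2
    · exact absurd hx (hodd g hg)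

lemma Kills.twoValues {α : Labellings S Ω} {G : Type u} [Group G] (h : Kills α G)
    (Γ' : Subgroup (Gam α)) (hΓ' : Γ'.FiniteIndex) (φ : Γ' →* G) : TwoValues φ :=
  twoValues_of Γ' φ (h Γ' hΓ' φ)

lemma Kills.index_le {α : Labellings S Ω} {G : Type u} [Group G] (h : Kills α G)
    (Γ' : Subgroup (Gam α)) (hΓ' : Γ'.FiniteIndex) : Γ'.index ≤ 2 := by
  have h1 : Ev k ≤ Γ'.comap (cl α) := by
    intro g hg
    obtain ⟨h1, -⟩ := h Γ' hΓ' 1 g hg
    exact h1
  have h2 : (Γ'.comap (cl α)).index = Γ'.index :=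
    Subgroup.index_comap_of_surjective _ (QuotientGroup.mk'_surjective _)
  rw [← h2]
  have h3 : (Γ'.comap (cl α)).index ≤ (Ev k).index :=
    Nat.le_of_dvd (Nat.pos_of_ne_zero (Subgroup.FiniteIndex.index_ne_zero))
      (Subgroup.index_dvd_of_le h1)
  refine h3.trans ?_
  unfold Ev
  rw [Subgroup.index_ker]
  have h4 : Nat.card (par k).range ≤ Nat.card ℤˣ := Nat.card_le_card_of_injective _
    (Subtype.val_injective)
  refine h4.trans ?_
  rw [Nat.card_eq_fintype_card]
  decide

/-- Homomorphisms to residually finite groups are controlled by homomorphisms to finite symmetric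
groups. -/
lemma kills_residuallyFinite {α : Labellings S Ω}
    (h : ∀ m : ℕ, Kills α (Equiv.Perm (Fin m))) {G : Type u} [Group G] (Γ' : Subgroup (Gam α))
    (hΓ' : Γ'.FiniteIndex) (φ : Γ' →* G)
    (hrf : ∀ y : φ.range, y ≠ 1 → ∃ (m : ℕ) (q : φ.range →* Equiv.Perm (Fin m)), q y ≠ 1) :
    TwoValues φ := by
  apply twoValues_of
  intro g hg
  obtain ⟨h1, -⟩ := h 0 Γ' hΓ' 1 g hg
  refine ⟨h1, ?_⟩
  by_contra hne
  have hy : φ.rangeRestrict ⟨cl α g, h1⟩ ≠ 1 := by
    intro h0
    exact hne (congrArg Subtype.val h0)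
  obtain ⟨m, q, hq⟩ := hrf _ hy
  obtain ⟨h2, h3⟩ := h m Γ' hΓ' (q.comp φ.rangeRestrict) g hg
  exact hq h3

/-- Finite groups are groups of permutations of `Fin m`. -/
lemma exists_perm (Q : Type u) [Group Q] [Finite Q] :
    ∃ (m : ℕ) (q : Q →* Equiv.Perm (Fin m)), Function.Injective q := by
  obtain ⟨m, ⟨e⟩⟩ := Finite.exists_equiv_fin Q
  refine ⟨m, e.permCongrHom.toMonoidHom.comp (MulAction.toPermHom Q Q), ?_⟩
  intro a b hab
  have h1 : (MulAction.toPermHom Q Q) a = (MulAction.toPermHom Q Q) b :=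
    e.permCongrHom.injective hab
  exact MulAction.toPerm_injective h1

end Pool.Agent.Y839.Mon
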